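import Mathlib
import Pool.Agent.H313DD.Main

/-!
# The possible numbers of distinct distances of `n` points of `ℝ^k`

`D k n` is the set of the numbers of distinct distances determined by `n` points of `ℝ^k`.

* `D 1 n` is the whole interval `[n - 1, n choose 2]`, and `D k n = [1, n choose 2]` for `n ≤ k + 1`.
* For `k ≥ 2` every integer of `[⌊n/2⌋, n choose 2]` belongs to `D k n`.
* For `k ≥ 2` there is `C_k` such that every integer of `[C_k n^(2/k), n choose 2]` belongs to
  `D k n`, and in the plane there is `C` such that every integer of `[C n / √(log n), n choose 2]`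
  belongs to `D 2 n`. (Up to the constant these left endpoints are the numbers of distances of the
  lattice sections, the best known upper bounds for the minimum `g_k(n)` of `D k n`.)
* The sets are nested: a value `h ∈ D k n` is also a value for every smaller number `n'` of points
  with `h ≤ n' choose 2`.

The lattice part: the lattice points of a ball of radius `r`, truncated in one direction, have all
lattice distances up to `2 r - k`; one outer point `ℓ` on one side and the points of a region on the
other side have only old distances to the truncated ball and to each other, so that adding the points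
of the region one by one creates at most one new distance (the one to `ℓ`) at a time.
-/

namespace Pool.Agent.Results.MP_603301_co.ValueSets

/-- The number of distinct distances determined by a finite set `X` of points of `ℝ^k`. -/
noncomputable def numDist {k : ℕ} (X : Finset (EuclideanSpace ℝ (Fin k))) : ℕ :=
  {d : ℝ | ∃ x ∈ X, ∃ y ∈ X, x ≠ y ∧ dist x y = d}.ncard

/-- The set of all numbers of distinct distances of `n` distinct points of `ℝ^k`. -/
def D (k n : ℕ) : Set ℕ :=
  {h | ∃ X : Finset (EuclideanSpace ℝ (Fin k)), X.card = n ∧ numDist X = h}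

lemma numDist_eq {k : ℕ} (X : Finset (EuclideanSpace ℝ (Fin k))) :
    numDist X = Pool.Agent.H313DD.numDist X := by
  classical
  rw [Pool.Agent.H313DD.numDist_def, numDist, ← Set.ncard_coe_finset]
  congr 1
  ext d
  simp only [Set.mem_setOf_eq, Finset.coe_image, Set.mem_image, Finset.mem_coe,
    Finset.mem_offDiag, Prod.exists]
  constructor
  · rintro ⟨x, hx, y, hy, hne, rfl⟩
    exact ⟨x, y, ⟨hx, hy, hne⟩, rfl⟩
  · rintro ⟨x, y, ⟨hx, hy, hne⟩, rfl⟩
    exact ⟨x, hx, y, hy, hne, rfl⟩

lemma D_eq (k n : ℕ) : D k n = Pool.Agent.H313DD.D k n := by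
  ext h
  simp only [D, Pool.Agent.H313DD.D, numDist_eq]

theorem result :
    (∀ n : ℕ, 1 ≤ n → D 1 n = Set.Icc (n - 1) (n.choose 2)) ∧
    (∀ k n : ℕ, 1 ≤ k → 2 ≤ n → n ≤ k + 1 → D k n = Set.Icc 1 (n.choose 2)) ∧
    (∀ k n : ℕ, 2 ≤ k → 1 ≤ n → Set.Icc (n / 2) (n.choose 2) ⊆ D k n) ∧
    (∀ k : ℕ, 2 ≤ k → ∃ C : ℝ, 0 < C ∧ ∀ n h : ℕ, 2 ≤ n →
      C * (n : ℝ) ^ (2 / (k : ℝ)) ≤ h → h ≤ n.choose 2 → h ∈ D k n) ∧
    (∃ C : ℝ, 0 < C ∧ ∀ n h : ℕ, 2 ≤ n →
      C * n / Real.sqrt (Real.log n) ≤ h → h ≤ n.choose 2 → h ∈ D 2 n) ∧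
    (∀ k n n' h : ℕ, 1 ≤ k → 1 ≤ n' → n' ≤ n → h ∈ D k n → h ≤ n'.choose 2 → h ∈ D k n') := by
  simp only [D_eq]
  refine ⟨fun n hn => Pool.Agent.H313DD.D_one hn,
    fun k n hk hn hnk => Pool.Agent.H313DD.D_simplex hk hn hnk,
    fun k n hk hn h hh => Pool.Agent.H313DD.half_mem_D hk hn hh.1 hh.2,
    fun k hk => Pool.Agent.H313DD.power_range hk, Pool.Agent.H313DD.plane_range,
    fun k n n' h hk hn' hle hh h2 => Pool.Agent.H313DD.nested hk hn' hle hh h2⟩

end Pool.Agent.Results.MP_603301_co.ValueSets
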